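import Mathlib

/-!
# Finite-rank operators (auxiliary)
-/

namespace Pool.Agent.Lib_helper7.OpIdeal

universe u

/-- The bounded operator `T` has finite rank. -/
def FiniteRank {𝕜 : Type} [RCLike 𝕜] {X Y : Type u} [NormedAddCommGroup X] [NormedSpace 𝕜 X]
    [NormedAddCommGroup Y] [NormedSpace 𝕜 Y] (T : X →L[𝕜] Y) : Prop :=
  FiniteDimensional 𝕜 (LinearMap.range (T : X →ₗ[𝕜] Y))

end Pool.Agent.Lib_helper7.OpIdeal
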