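import Mathlib

/-!
# Banach operator ideals, the bounded approximation property for an ideal, condition `(P_λ)`
-/

namespace Pool.Agent.Lib_helper7.OpIdealStmt

open Filter Topology

universe u

/-- A Banach space over `𝕜`. -/
structure Ban (𝕜 : Type) [RCLike 𝕜] where
  /-- the underlying type -/
  carrier : Type u
  [normed : NormedAddCommGroup carrier]
  [space : NormedSpace 𝕜 carrier]
  [complete : CompleteSpace carrier]

instance (𝕜 : Type) [RCLike 𝕜] : CoeSort (Ban.{u} 𝕜) (Type u) := ⟨Ban.carrier⟩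

attribute [instance] Ban.normed Ban.space Ban.complete

variable {𝕜 : Type} [RCLike 𝕜]

/-- The bounded linear operators from `X` to `Y`, with the operator norm. -/
def Op (X Y : Ban.{u} 𝕜) : Type u := X →L[𝕜] Y

/-- the usual operations and the operator norm -/
noncomputable instance instNormedOp (X Y : Ban.{u} 𝕜) : NormedAddCommGroup (Op X Y) :=
  (inferInstance : NormedAddCommGroup (X →L[𝕜] Y))

/-- the usual scalar multiplication -/
noncomputable instance instSpaceOp (X Y : Ban.{u} 𝕜) : NormedSpace 𝕜 (Op X Y) :=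
  (inferInstance : NormedSpace 𝕜 (X →L[𝕜] Y))

/-- operators are functions -/
instance instFunLikeOp (X Y : Ban.{u} 𝕜) : FunLike (Op X Y) X Y :=
  (inferInstance : FunLike (X →L[𝕜] Y) X Y)

/-- Composition of operators, `(R.comp T) x = R (T x)`. -/
def Op.comp {X Y Z : Ban.{u} 𝕜} (R : Op Y Z) (T : Op X Y) : Op X Z :=
  ContinuousLinearMap.comp (show Y →L[𝕜] Z from R) (show X →L[𝕜] Y from T)

/-- The rank-one operator `f ⊗ y : x ↦ f(x) y`. -/
def Op.rankOne {X Y : Ban.{u} 𝕜} (f : X →L[𝕜] 𝕜) (y : Y) : Op X Y := f.smulRight y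

/-- `T` has finite rank: its range spans a finite-dimensional space. -/
def Op.FiniteRank {X Y : Ban.{u} 𝕜} (T : Op X Y) : Prop :=
  FiniteDimensional 𝕜 (Submodule.span 𝕜 (Set.range T))

/-- The data of an operator ideal: for all Banach spaces `X`, `Y` a linear subspace `A(X,Y)` of the
bounded operators from `X` to `Y`, and a real number `‖T‖_A` for each operator `T` (only the values
at members of `A(X,Y)` matter). -/
structure IdealData (𝕜 : Type) [RCLike 𝕜] where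
  /-- the component `A(X,Y)` -/
  component : ∀ X Y : Ban.{u} 𝕜, Submodule 𝕜 (Op X Y)
  /-- the ideal norm -/
  nrm : ∀ {X Y : Ban.{u} 𝕜}, Op X Y → ℝ

/-- Every component `A(X,Y)` contains the finite-rank operators. -/
def ContainsFiniteRank (A : IdealData.{u} 𝕜) : Prop :=
  ∀ (X Y : Ban.{u} 𝕜) (T : Op X Y), T.FiniteRank → T ∈ A.component X Y

/-- `‖·‖_A` is a norm on every component `A(X,Y)`. -/
def IsNorm (A : IdealData.{u} 𝕜) : Prop :=
  ∀ X Y : Ban.{u} 𝕜, ∀ S ∈ A.component X Y, ∀ T ∈ A.component X Y, ∀ c : 𝕜,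
    0 ≤ A.nrm T ∧ (A.nrm T = 0 ↔ T = 0) ∧ A.nrm (S + T) ≤ A.nrm S + A.nrm T ∧
      A.nrm (c • T) = ‖c‖ * A.nrm T

/-- Every `‖·‖_A`-Cauchy sequence in `A(X,Y)` converges in `A(X,Y)` with respect to `‖·‖_A`. -/
def IsCompleteNorm (A : IdealData.{u} 𝕜) : Prop :=
  ∀ (X Y : Ban.{u} 𝕜) (T : ℕ → Op X Y), (∀ n, T n ∈ A.component X Y) →
    (∀ ε : ℝ, 0 < ε → ∃ N, ∀ m ≥ N, ∀ n ≥ N, A.nrm (T m - T n) < ε) →
    ∃ T₀ ∈ A.component X Y, Tendsto (fun n => A.nrm (T n - T₀)) atTop (𝓝 0)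

/-- `‖x* ⊗ y‖_A = ‖x*‖ ‖y‖`. -/
def IsNormalised (A : IdealData.{u} 𝕜) : Prop :=
  ∀ (X Y : Ban.{u} 𝕜) (f : X →L[𝕜] 𝕜) (y : Y), A.nrm (Op.rankOne f y) = ‖f‖ * ‖y‖

/-- The ideal property, with its norm inequality. -/
def HasIdealProperty (A : IdealData.{u} 𝕜) : Prop :=
  ∀ (W X Y Z : Ban.{u} 𝕜) (S : Op W X) (R : Op Y Z), ∀ T ∈ A.component X Y,
    R.comp (T.comp S) ∈ A.component W Z ∧ A.nrm (R.comp (T.comp S)) ≤ ‖R‖ * A.nrm T * ‖S‖

/-- A Banach operator ideal `(A, ‖·‖_A)` over the scalar field `𝕜`. -/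
structure BanachOperatorIdeal (𝕜 : Type) [RCLike 𝕜] extends IdealData.{u} 𝕜 where
  containsFiniteRank : ContainsFiniteRank toIdealData
  isNorm : IsNorm toIdealData
  isCompleteNorm : IsCompleteNorm toIdealData
  isNormalised : IsNormalised toIdealData
  hasIdealProperty : HasIdealProperty toIdealData

/-- `X` has the `λ`-BAP for `A`: for every Banach space `Y` and every `T ∈ A(X,Y)` there is a net
`(S_α)` of finite-rank operators on `X` converging to the identity uniformly on compact sets, with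
`limsup ‖T S_α‖_A ≤ λ ‖T‖_A`. -/
def HasBAPFor (A : BanachOperatorIdeal.{u} 𝕜) (X : Ban.{u} 𝕜) (lam : ℝ) : Prop :=
  ∀ Y : Ban.{u} 𝕜, ∀ T ∈ A.component X Y,
    ∃ (ι : Type u) (_ : Nonempty ι) (_ : Preorder ι) (_ : IsDirected ι (· ≤ ·)) (S : ι → Op X X),
      (∀ α, (S α).FiniteRank) ∧
      (∀ K : Set X, IsCompact K → TendstoUniformlyOn (fun α x => S α x) (fun x => x) atTop K) ∧
      limsup (fun α => (A.nrm (T.comp (S α)) : EReal)) atTop ≤ (lam * A.nrm T : ℝ)

/-- Condition `(P_λ)` for `A`: for every Banach space `Y` and every `T ∈ A(X,Y)` there is a net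
`(T_α)` of finite-rank operators from `X` to `Y` converging to `T` pointwise, with
`limsup ‖T_α‖_A ≤ λ ‖T‖_A`. -/
def CondP (A : BanachOperatorIdeal.{u} 𝕜) (X : Ban.{u} 𝕜) (lam : ℝ) : Prop :=
  ∀ Y : Ban.{u} 𝕜, ∀ T ∈ A.component X Y,
    ∃ (ι : Type u) (_ : Nonempty ι) (_ : Preorder ι) (_ : IsDirected ι (· ≤ ·)) (S : ι → Op X Y),
      (∀ α, (S α).FiniteRank) ∧
      (∀ x : X, Tendsto (fun α => S α x) atTop (𝓝 (T x))) ∧
      limsup (fun α => (A.nrm (S α) : EReal)) atTop ≤ (lam * A.nrm T : ℝ)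

/-- `X` has the approximation property: the identity of `X` can be approximated by finite-rank
operators uniformly on compact sets. -/
def HasAP (X : Ban.{u} 𝕜) : Prop :=
  ∀ K : Set X, IsCompact K → ∀ ε : ℝ, 0 < ε →
    ∃ S : Op X X, S.FiniteRank ∧ ∀ x ∈ K, ‖S x - x‖ ≤ ε

end Pool.Agent.Lib_helper7.OpIdealStmt
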