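import Mathlib
import Pool.Agent.Lib_helper7.OpIdeal.Defs
import Pool.Agent.Lib_helper7.OpIdeal.Stmt

/-!
# The ideal of approximable operators satisfies `(P_1)` for every Banach space
-/

set_option autoImplicit false

namespace Pool.Agent.Lib_helper7.OpIdeal

open Filter Topology

universe u

section

variable {𝕜 : Type} [RCLike 𝕜] {W X Y Z : Type u}
  [NormedAddCommGroup W] [NormedSpace 𝕜 W]
  [NormedAddCommGroup X] [NormedSpace 𝕜 X]
  [NormedAddCommGroup Y] [NormedSpace 𝕜 Y]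
  [NormedAddCommGroup Z] [NormedSpace 𝕜 Z]

theorem finiteRank_of_le {T : X →L[𝕜] Y} {V : Submodule 𝕜 Y} [FiniteDimensional 𝕜 V]
    (h : ∀ x, T x ∈ V) : FiniteRank T := by
  have : LinearMap.range (T : X →ₗ[𝕜] Y) ≤ V := by
    rintro _ ⟨x, rfl⟩
    exact h x
  exact Submodule.finiteDimensional_of_le this

theorem finiteRank_zero : FiniteRank (0 : X →L[𝕜] Y) :=
  finiteRank_of_le (V := ⊥) fun _ => by simp

theorem finiteRank_add {S T : X →L[𝕜] Y} (hS : FiniteRank S) (hT : FiniteRank T) :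
    FiniteRank (S + T) := by
  unfold FiniteRank at hS hT
  exact finiteRank_of_le (V := LinearMap.range (S : X →ₗ[𝕜] Y) ⊔ LinearMap.range (T : X →ₗ[𝕜] Y))
    fun x => Submodule.add_mem_sup ⟨x, rfl⟩ ⟨x, rfl⟩

theorem finiteRank_smul {T : X →L[𝕜] Y} (c : 𝕜) (hT : FiniteRank T) : FiniteRank (c • T) := by
  unfold FiniteRank at hT
  exact finiteRank_of_le (V := LinearMap.range (T : X →ₗ[𝕜] Y))
    fun x => Submodule.smul_mem _ _ ⟨x, rfl⟩

theorem finiteRank_sum {I : Type} (s : Finset I) {T : I → (X →L[𝕜] Y)}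
    (hT : ∀ i ∈ s, FiniteRank (T i)) : FiniteRank (∑ i ∈ s, T i) := by
  classical
  induction s using Finset.induction_on with
  | empty => simpa using (finiteRank_zero (𝕜 := 𝕜) (X := X) (Y := Y))
  | insert a s ha ih =>
    rw [Finset.sum_insert ha]
    exact finiteRank_add (hT a (Finset.mem_insert_self _ _))
      (ih fun i hi => hT i (Finset.mem_insert_of_mem hi))

theorem finiteRank_comp_left (R : Y →L[𝕜] Z) {T : X →L[𝕜] Y} (hT : FiniteRank T) :
    FiniteRank (R ∘L T) := by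
  unfold FiniteRank at hT
  exact finiteRank_of_le (V := (LinearMap.range (T : X →ₗ[𝕜] Y)).map (R : Y →ₗ[𝕜] Z))
    fun x => ⟨T x, ⟨x, rfl⟩, rfl⟩

theorem finiteRank_comp_right (S : W →L[𝕜] X) {T : X →L[𝕜] Y} (hT : FiniteRank T) :
    FiniteRank (T ∘L S) := by
  unfold FiniteRank at hT
  exact finiteRank_of_le (V := LinearMap.range (T : X →ₗ[𝕜] Y)) fun _ => ⟨_, rfl⟩

theorem finiteRank_smulRight (f : X →L[𝕜] 𝕜) (y : Y) :
    FiniteRank (f.smulRight y : X →L[𝕜] Y) :=
  finiteRank_of_le (V := Submodule.span 𝕜 {y}) fun _ =>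
    Submodule.smul_mem _ _ (Submodule.mem_span_singleton_self y)

variable (𝕜 X Y) in
/-- the finite-rank operators, as a subspace -/
def finiteRankSub : Submodule 𝕜 (X →L[𝕜] Y) where
  carrier := {T | FiniteRank T}
  add_mem' := fun hS hT => finiteRank_add hS hT
  zero_mem' := finiteRank_zero
  smul_mem' := fun c _ hT => finiteRank_smul c hT

theorem mem_finiteRankSub {T : X →L[𝕜] Y} : T ∈ finiteRankSub 𝕜 X Y ↔ FiniteRank T := Iff.rfl

theorem mem_closure_comp (S : W →L[𝕜] X) (T : X →L[𝕜] Y) (R : Y →L[𝕜] Z)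
    (hT : T ∈ (finiteRankSub 𝕜 X Y).topologicalClosure) :
    R ∘L T ∘L S ∈ (finiteRankSub 𝕜 W Z).topologicalClosure := by
  have hcont : Continuous (fun T : X →L[𝕜] Y => R ∘L T ∘L S) := by fun_prop
  have hmaps : Set.MapsTo (fun T : X →L[𝕜] Y => R ∘L T ∘L S)
      (finiteRankSub 𝕜 X Y : Set (X →L[𝕜] Y)) (finiteRankSub 𝕜 W Z : Set (W →L[𝕜] Z)) :=
    fun T hT => finiteRank_comp_left R (finiteRank_comp_right S hT)
  exact hmaps.closure hcont hT

end

open OpIdealStmt

theorem span_range_eq {𝕜 : Type} [RCLike 𝕜] {X Y : Ban.{u} 𝕜} (T : X →L[𝕜] Y) :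
    Submodule.span 𝕜 (Set.range T) = LinearMap.range (T : X →ₗ[𝕜] Y) := by
  have h : Set.range T = ((LinearMap.range (T : X →ₗ[𝕜] Y) : Submodule 𝕜 Y) : Set Y) := by
    rw [LinearMap.coe_range]; rfl
  rw [h, Submodule.span_eq]

theorem opFiniteRank_iff {𝕜 : Type} [RCLike 𝕜] {X Y : Ban.{u} 𝕜} (T : X →L[𝕜] Y) :
    Op.FiniteRank (X := X) (Y := Y) T ↔ FiniteRank T := by
  have h := span_range_eq T
  change FiniteDimensional 𝕜 (Submodule.span 𝕜 (Set.range T)) ↔ _
  rw [h]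
  rfl

/-- The Banach operator ideal of approximable operators: `A(X,Y)` is the closure of the
finite-rank operators in the operator norm, and `‖·‖_A` is the operator norm. -/
noncomputable def approximable (𝕜 : Type) [RCLike 𝕜] : BanachOperatorIdeal.{u} 𝕜 where
  component X Y := (finiteRankSub 𝕜 X Y).topologicalClosure
  nrm {X Y} T := ‖(show X →L[𝕜] Y from T)‖
  containsFiniteRank := fun X Y T hT =>
    Submodule.le_topologicalClosure (finiteRankSub 𝕜 X Y) ((opFiniteRank_iff _).1 hT)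
  isNorm := fun X Y S _ T _ c =>
    ⟨norm_nonneg (show X →L[𝕜] Y from T), norm_eq_zero (a := (show X →L[𝕜] Y from T)),
      norm_add_le (show X →L[𝕜] Y from S) (show X →L[𝕜] Y from T),
      norm_smul c (show X →L[𝕜] Y from T)⟩
  isCompleteNorm := by
    intro X Y T hT hc
    let T' : ℕ → (X →L[𝕜] Y) := T
    have hcs : CauchySeq T' := by
      rw [Metric.cauchySeq_iff]
      intro ε hε
      obtain ⟨N, hN⟩ := hc ε hε
      exact ⟨N, fun m hm n hn => by rw [dist_eq_norm]; exact hN m hm n hn⟩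
    obtain ⟨T₀, h0⟩ := cauchySeq_tendsto_of_complete hcs
    refine ⟨T₀, ?_, ?_⟩
    · exact (Submodule.isClosed_topologicalClosure (finiteRankSub 𝕜 X Y)).mem_of_tendsto h0
        (Eventually.of_forall hT)
    · exact tendsto_iff_norm_sub_tendsto_zero.1 h0
  isNormalised := fun X Y f y => ContinuousLinearMap.norm_smulRight_apply f y
  hasIdealProperty := by
    intro W X Y Z S R T hT
    let S' : W →L[𝕜] X := S
    let T' : X →L[𝕜] Y := T
    let R' : Y →L[𝕜] Z := R
    refine ⟨mem_closure_comp S' T' R' hT, ?_⟩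
    change ‖R' ∘L T' ∘L S'‖ ≤ ‖R'‖ * ‖T'‖ * ‖S'‖
    calc ‖R' ∘L T' ∘L S'‖ ≤ ‖R'‖ * ‖T' ∘L S'‖ := ContinuousLinearMap.opNorm_comp_le _ _
      _ ≤ ‖R'‖ * (‖T'‖ * ‖S'‖) :=
        mul_le_mul_of_nonneg_left (ContinuousLinearMap.opNorm_comp_le _ _) (norm_nonneg _)
      _ = _ := by ring

/-- Condition `(P_1)` for the approximable operators holds for every Banach space. -/
theorem condP_approximable (𝕜 : Type) [RCLike 𝕜] (X : Ban.{u} 𝕜) :
    CondP (approximable.{u} 𝕜) X 1 := by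
  intro Y T hT
  let T' : X →L[𝕜] Y := T
  have hT' : T' ∈ closure (finiteRankSub 𝕜 X Y : Set (X →L[𝕜] Y)) := hT
  obtain ⟨S, hS, hlim⟩ := mem_closure_iff_seq_limit.1 hT'
  have hdown : Tendsto (fun n : ULift.{u} ℕ => n.down) atTop atTop :=
    tendsto_atTop.2 fun b => (eventually_ge_atTop (⟨b⟩ : ULift.{u} ℕ)).mono fun a h => h
  refine ⟨ULift.{u} ℕ, inferInstance, inferInstance, inferInstance, fun n => S n.down,
    fun n => (opFiniteRank_iff _).2 (hS n.down), ?_, ?_⟩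
  · intro x
    have h1 : Tendsto (fun n => S n x) atTop (𝓝 (T' x)) :=
      ((ContinuousLinearMap.apply 𝕜 Y x).continuous.tendsto T').comp hlim
    exact h1.comp hdown
  · have h1 : Tendsto (fun n : ULift.{u} ℕ => ‖S n.down‖) atTop (𝓝 ‖T'‖) :=
      ((continuous_norm.tendsto T').comp hlim).comp hdown
    have h2 : Tendsto (fun n : ULift.{u} ℕ => ((‖S n.down‖ : ℝ) : EReal)) atTop
        (𝓝 ((‖T'‖ : ℝ) : EReal)) := (continuous_coe_real_ereal.tendsto _).comp h1
    change limsup (fun n : ULift.{u} ℕ => ((‖S n.down‖ : ℝ) : EReal)) atTop ≤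
      ((1 * ‖T'‖ : ℝ) : EReal)
    rw [h2.limsup_eq, one_mul]

end Pool.Agent.Lib_helper7.OpIdeal
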