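import Mathlib
import Pool.Agent.Lib_helper7.OpIdeal.Approx

/-!
# The key estimate
-/

set_option autoImplicit false

namespace Pool.Agent.Lib_helper7.OpIdeal

open Filter Topology

universe u

section

variable {𝕜 : Type} [RCLike 𝕜] {X W : Type u}
  [NormedAddCommGroup X] [NormedSpace 𝕜 X]
  [NormedAddCommGroup W] [NormedSpace 𝕜 W]

/-- expansion of a finite-rank operator in a basis of its range -/
theorem finiteRank_expand {S : W →L[𝕜] W} (hS : FiniteRank S) :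
    ∃ (d : ℕ) (c : Fin d → (W →L[𝕜] 𝕜)) (v : Fin d → W), ∀ w, S w = ∑ i, c i w • v i := by
  unfold FiniteRank at hS
  set R := LinearMap.range (S : W →ₗ[𝕜] W) with hR
  let bas := Module.finBasis 𝕜 R
  let Sr : W →L[𝕜] R := S.codRestrict R (fun x => LinearMap.mem_range_self _ x)
  refine ⟨_, fun i => (LinearMap.toContinuousLinearMap (bas.coord i)) ∘L Sr,
    fun i => ((bas i : R) : W), fun x => ?_⟩
  have h1 := bas.sum_repr (Sr x)
  have h2 : S x = ((Sr x : R) : W) := rfl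
  rw [h2, ← h1, Submodule.coe_sum]
  refine Finset.sum_congr rfl fun i _ => ?_
  rw [Submodule.coe_smul]
  rfl

theorem key_estimate (E : ℕ → Submodule 𝕜 X) (hE : Monotone E) {I : Type} (y : I → X)
    (y' : I → (X →L[𝕜] 𝕜)) (b : I → ℝ) (N : I → ℕ) (hN : ∀ n, {i | N i ≤ n}.Finite)
    (hyE : ∀ i, y i ∈ E (N i)) (C C' : ℝ) (hC : ∀ i, ‖y' i‖ ≤ C) (hC' : ∀ i, ‖y i‖ ≤ C')
    (hb : ∀ i, 0 ≤ b i) (hbs : Summable b)
    (h1 : HasSum (fun i => ((b i : ℝ) : 𝕜) * y' i (y i)) 1)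
    (h0 : ∀ x : X, HasSum (fun i => (((b i : ℝ) : 𝕜) * y' i x) • y i) 0)
    (q : W →L[𝕜] X) (hq : ∀ w, ‖q w‖ ≤ ‖w‖) (L : ℕ → (X →ₗ[𝕜] W))
    (hL1 : ∀ n, ∀ x ∈ E n, q (L n x) = x) (hL2 : ∀ n, ∀ x ∈ E n, ‖L n x‖ ≤ ‖x‖)
    (κ : ℝ) (hL3 : ∀ m n, m ≤ n → ∀ x ∈ E m, ‖L n x - L m x‖ ≤ κ * ‖x‖)
    (S : W →L[𝕜] W) (hS : FiniteRank S) (Λ : ℝ) (hΛ0 : 0 ≤ Λ) (hκ : 0 ≤ κ)
    (hΛ : ∀ i, ∀ w : W, ‖y' i (q (S w))‖ ≤ Λ * ‖w‖) (δ : ℝ)
    (hδ : ∀ i, ‖S (L (N i) (y i)) - L (N i) (y i)‖ ≤ δ) :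
    1 ≤ (∑' i, b i) * (Λ * (κ * C') + C * δ) := by
  classical
  have hI : Nonempty I := by
    by_contra hne
    rw [not_nonempty_iff] at hne
    have := h1.unique (hasSum_empty)
    exact one_ne_zero this
  obtain ⟨i0⟩ := hI
  have hC0 : 0 ≤ C := (norm_nonneg _).trans (hC i0)
  have hC0' : 0 ≤ C' := (norm_nonneg _).trans (hC' i0)
  have hδ0 : 0 ≤ δ := (norm_nonneg _).trans (hδ i0)
  let F : ℕ → Finset I := fun n => (hN n).toFinset
  have hmemF : ∀ n i, i ∈ F n ↔ N i ≤ n := fun n i => by simp [F]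
  have hF : Tendsto F atTop atTop := by
    refine tendsto_atTop_finset_of_monotone ?_ ?_
    · intro m n hmn i hi
      rw [hmemF] at hi ⊢
      exact hi.trans hmn
    · intro i
      exact ⟨N i, (hmemF _ _).2 le_rfl⟩
  -- the first sums tend to one
  have hB : Tendsto (fun n => ∑ i ∈ F n, ((b i : ℝ) : 𝕜) * y' i (y i)) atTop (𝓝 1) := h1.comp hF
  -- the second sums tend to zero
  have hA : Tendsto (fun n => ∑ i ∈ F n, ((b i : ℝ) : 𝕜) * y' i (q (S (L n (y i))))) atTop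
      (𝓝 0) := by
    obtain ⟨d, c, v, hcv⟩ := finiteRank_expand hS
    have hs : ∀ m : Fin d, Tendsto (fun n => ∑ i ∈ F n, (((b i : ℝ) : 𝕜) * y' i (q (v m))) • y i)
        atTop (𝓝 0) := fun m => (h0 (q (v m))).comp hF
    have hexp : ∀ n, ∑ i ∈ F n, ((b i : ℝ) : 𝕜) * y' i (q (S (L n (y i)))) =
        ∑ m, c m (L n (∑ i ∈ F n, (((b i : ℝ) : 𝕜) * y' i (q (v m))) • y i)) := by
      intro n
      have e1 : ∀ i, y' i (q (S (L n (y i)))) = ∑ m, c m (L n (y i)) * y' i (q (v m)) := by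
        intro i
        rw [hcv, map_sum, map_sum]
        simp only [map_smul, smul_eq_mul]
      simp only [e1, map_sum, map_smul, smul_eq_mul, Finset.mul_sum]
      rw [Finset.sum_comm]
      refine Finset.sum_congr rfl fun m _ => Finset.sum_congr rfl fun i _ => ?_
      ring
    simp only [hexp]
    have : (0 : 𝕜) = ∑ m : Fin d, (0 : 𝕜) := by simp
    rw [this]
    refine tendsto_finsetSum _ fun m _ => ?_
    refine squeeze_zero_norm (a := fun n => ‖c m‖ *
      ‖∑ i ∈ F n, (((b i : ℝ) : 𝕜) * y' i (q (v m))) • y i‖) ?_ ?_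
    · intro n
      refine ((c m).le_opNorm _).trans (mul_le_mul_of_nonneg_left ?_ (norm_nonneg _))
      refine hL2 n _ (Submodule.sum_mem _ fun i hi => Submodule.smul_mem _ _ ?_)
      exact hE ((hmemF n i).1 hi) (hyE i)
    · have := (hs m).norm.const_mul ‖c m‖
      simpa using this
  have hbound : ∀ n, ‖(∑ i ∈ F n, ((b i : ℝ) : 𝕜) * y' i (y i)) -
      ∑ i ∈ F n, ((b i : ℝ) : 𝕜) * y' i (q (S (L n (y i))))‖ ≤
      (∑' i, b i) * (Λ * (κ * C') + C * δ) := by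
    intro n
    rw [← Finset.sum_sub_distrib]
    calc _ ≤ ∑ i ∈ F n, ‖((b i : ℝ) : 𝕜) * y' i (y i) -
            ((b i : ℝ) : 𝕜) * y' i (q (S (L n (y i))))‖ := norm_sum_le _ _
      _ ≤ ∑ i ∈ F n, b i * (Λ * (κ * C') + C * δ) := by
          refine Finset.sum_le_sum fun i hi => ?_
          rw [← mul_sub, norm_mul, RCLike.norm_ofReal, abs_of_nonneg (hb i)]
          refine mul_le_mul_of_nonneg_left ?_ (hb i)
          have hNi := (hmemF n i).1 hi
          have e1 : y' i (y i) - y' i (q (S (L n (y i)))) =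
              -(y' i (q (S (L n (y i) - L (N i) (y i))))) -
              y' i (q (S (L (N i) (y i)) - L (N i) (y i))) := by
            simp only [map_sub]
            rw [hL1 (N i) (y i) (hyE i)]
            ring
          rw [e1]
          refine (norm_sub_le _ _).trans (add_le_add ?_ ?_)
          · rw [norm_neg]
            refine (hΛ i _).trans (mul_le_mul_of_nonneg_left ?_ hΛ0)
            exact (hL3 (N i) n hNi (y i) (hyE i)).trans (mul_le_mul_of_nonneg_left (hC' i) hκ)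
          · refine ((y' i).le_opNorm _).trans (mul_le_mul (hC i) ?_ (norm_nonneg _) hC0)
            exact (hq _).trans (hδ i)
      _ = (∑ i ∈ F n, b i) * (Λ * (κ * C') + C * δ) := by rw [Finset.sum_mul]
      _ ≤ _ := by
          refine mul_le_mul_of_nonneg_right (hbs.sum_le_tsum _ fun i _ => hb i) ?_
          positivity
  have hlim := (hB.sub hA).norm
  rw [sub_zero, norm_one] at hlim
  exact le_of_tendsto' hlim hbound

end

end Pool.Agent.Lib_helper7.OpIdeal
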