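import Mathlib
import Pool.Agent.Lib_helper7.OpIdeal.Approx

/-!
# Spaces of convergent sequences with the bounded approximation property
-/

set_option autoImplicit false

namespace Pool.Agent.Lib_helper7.OpIdeal

open Filter Topology OnePoint

universe u

section

variable {𝕜 : Type} [RCLike 𝕜] {X : Type u} [NormedAddCommGroup X] [NormedSpace 𝕜 X]

/-- pairs `(x, f)`, `f` a convergent sequence with `f n ∈ E n`, and `x = (M+1) lim f` -/
def YY (E : ℕ → Submodule 𝕜 X) (M : ℕ) : Submodule 𝕜 (X × C(OnePoint ℕ, X)) where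
  carrier := {w | w.1 = ((M : 𝕜) + 1) • w.2 ∞ ∧ ∀ n : ℕ, w.2 (n : OnePoint ℕ) ∈ E n}
  add_mem' := by
    rintro ⟨a, f⟩ ⟨a', f'⟩ ⟨h1, h2⟩ ⟨h1', h2'⟩
    refine ⟨?_, fun n => (E n).add_mem (h2 n) (h2' n)⟩
    simp only at h1 h1'
    simp only [Prod.mk_add_mk, ContinuousMap.add_apply, smul_add]
    rw [h1, h1']
  zero_mem' := ⟨by simp, fun n => by simp⟩
  smul_mem' := by
    rintro c ⟨a, f⟩ ⟨h1, h2⟩
    refine ⟨?_, fun n => (E n).smul_mem c (h2 n)⟩
    simp only at h1
    simp only [Prod.smul_mk, ContinuousMap.smul_apply]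
    rw [h1, smul_comm]

theorem YY_isClosed (E : ℕ → Submodule 𝕜 X) [∀ n, FiniteDimensional 𝕜 (E n)] (M : ℕ) :
    IsClosed (YY E M : Set (X × C(OnePoint ℕ, X))) := by
  have h1 : IsClosed {w : X × C(OnePoint ℕ, X) | w.1 = ((M : 𝕜) + 1) • w.2 ∞} := by
    refine isClosed_eq continuous_fst ?_
    exact ((continuous_eval_const (∞ : OnePoint ℕ)).comp continuous_snd).const_smul _
  have h2 : IsClosed {w : X × C(OnePoint ℕ, X) | ∀ n : ℕ, w.2 (n : OnePoint ℕ) ∈ E n} := by
    simp only [Set.ofPred_forall]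
    refine isClosed_iInter fun n => ?_
    have : IsClosed (E n : Set X) := Submodule.closed_of_finiteDimensional _
    exact this.preimage
      ((continuous_eval_const (n : OnePoint ℕ)).comp continuous_snd)
  exact h1.inter h2

instance YY_complete [CompleteSpace X] (E : ℕ → Submodule 𝕜 X) [∀ n, FiniteDimensional 𝕜 (E n)]
    (M : ℕ) : CompleteSpace (YY E M) :=
  (YY_isClosed E M).completeSpace_coe

/-- the quotient map `(x, f) ↦ x` -/
noncomputable def qq (E : ℕ → Submodule 𝕜 X) (M : ℕ) : YY E M →L[𝕜] X :=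
  (ContinuousLinearMap.fst 𝕜 X C(OnePoint ℕ, X)) ∘L (YY E M).subtypeL

theorem norm_qq_le (E : ℕ → Submodule 𝕜 X) (M : ℕ) (w : YY E M) : ‖qq E M w‖ ≤ ‖w‖ :=
  norm_fst_le (w : X × C(OnePoint ℕ, X))

/-- the sequence that is `0` before `n` and `x` from `n` on -/
def stepSeq (n : ℕ) (x : X) : C(OnePoint ℕ, X) :=
  OnePoint.continuousMapMkNat (fun m => if n ≤ m then x else 0) x (by
    refine tendsto_const_nhds.congr' ?_
    filter_upwards [eventually_ge_atTop n] with m hm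
    rw [if_pos hm])

@[simp] theorem stepSeq_infty (n : ℕ) (x : X) : stepSeq n x ∞ = x := rfl

@[simp] theorem stepSeq_nat (n : ℕ) (x : X) (m : ℕ) :
    stepSeq n x (m : OnePoint ℕ) = if n ≤ m then x else 0 := rfl

theorem scal_ne (𝕜 : Type) [RCLike 𝕜] (M : ℕ) : ((M : 𝕜) + 1) ≠ 0 := by
  exact_mod_cast Nat.succ_ne_zero M

theorem norm_scal (𝕜 : Type) [RCLike 𝕜] (M : ℕ) : ‖((M : 𝕜) + 1)‖ = (M : ℝ) + 1 := by
  have : ((M : 𝕜) + 1) = (((M : ℝ) + 1 : ℝ) : 𝕜) := by push_cast; rfl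
  rw [this, RCLike.norm_ofReal, abs_of_nonneg (by positivity)]

/-- the lifting `E n → YY` -/
noncomputable def lift0 (E : ℕ → Submodule 𝕜 X) (hE : Monotone E) (M n : ℕ) :
    E n →ₗ[𝕜] YY E M where
  toFun x := ⟨((x : X), stepSeq n (((M : 𝕜) + 1)⁻¹ • (x : X))), by
    refine ⟨?_, fun m => ?_⟩
    · simp only [stepSeq_infty]
      rw [smul_inv_smul₀ (scal_ne 𝕜 M)]
    · simp only [stepSeq_nat]
      split_ifs with h
      · exact (E m).smul_mem _ (hE h x.2)
      · exact (E m).zero_mem⟩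
  map_add' := by
    intro x x'
    apply Subtype.ext
    refine Prod.ext rfl ?_
    ext m
    induction m using OnePoint.rec with
    | infty => simp
    | coe m => simp; split_ifs <;> simp
  map_smul' := by
    intro c x
    apply Subtype.ext
    refine Prod.ext rfl ?_
    ext m
    induction m using OnePoint.rec with
    | infty => simp [smul_comm c]
    | coe m => simp; split_ifs <;> simp [smul_comm c]

/-- the lifting, extended linearly to `X` -/
noncomputable def liftL (E : ℕ → Submodule 𝕜 X) (hE : Monotone E) (M n : ℕ) :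
    X →ₗ[𝕜] YY E M :=
  lift0 E hE M n ∘ₗ (Classical.choose (LinearMap.exists_leftInverse_of_injective (E n).subtype
    (LinearMap.ker_eq_bot.2 (E n).injective_subtype)))

theorem liftL_apply (E : ℕ → Submodule 𝕜 X) (hE : Monotone E) (M n : ℕ) {x : X} (hx : x ∈ E n) :
    liftL E hE M n x = lift0 E hE M n ⟨x, hx⟩ := by
  unfold liftL
  have := Classical.choose_spec (LinearMap.exists_leftInverse_of_injective (E n).subtype
    (LinearMap.ker_eq_bot.2 (E n).injective_subtype))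
  have h2 := congrArg (fun g => g ⟨x, hx⟩) this
  simp only [LinearMap.comp_apply, LinearMap.id_apply, Submodule.subtype_apply] at h2
  rw [LinearMap.comp_apply, h2]

theorem qq_liftL (E : ℕ → Submodule 𝕜 X) (hE : Monotone E) (M n : ℕ) (x : X) (hx : x ∈ E n) :
    qq E M (liftL E hE M n x) = x := by
  rw [liftL_apply E hE M n hx]
  rfl

theorem norm_liftL_le (E : ℕ → Submodule 𝕜 X) (hE : Monotone E) (M n : ℕ) (x : X) (hx : x ∈ E n) :
    ‖liftL E hE M n x‖ ≤ ‖x‖ := by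
  rw [liftL_apply E hE M n hx]
  have h0 : ‖((M : 𝕜) + 1)⁻¹ • x‖ ≤ ‖x‖ := by
    rw [norm_smul, norm_inv, norm_scal]
    have : ((M : ℝ) + 1)⁻¹ ≤ 1 := inv_le_one_of_one_le₀ (by linarith [Nat.cast_nonneg (α := ℝ) M])
    calc _ ≤ 1 * ‖x‖ := mul_le_mul_of_nonneg_right this (norm_nonneg _)
      _ = _ := one_mul _
  change ‖((x : X), stepSeq n (((M : 𝕜) + 1)⁻¹ • (x : X)))‖ ≤ ‖x‖
  refine norm_prod_le_iff.2 ⟨le_rfl, ?_⟩
  rw [ContinuousMap.norm_le _ (norm_nonneg _)]
  intro m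
  induction m using OnePoint.rec with
  | infty => exact h0
  | coe m =>
    rw [stepSeq_nat]
    split_ifs
    · exact h0
    · simp

theorem norm_liftL_sub_le (E : ℕ → Submodule 𝕜 X) (hE : Monotone E) (M m n : ℕ) (hmn : m ≤ n)
    (x : X) (hx : x ∈ E m) :
    ‖liftL E hE M n x - liftL E hE M m x‖ ≤ ((M : ℝ) + 1)⁻¹ * ‖x‖ := by
  rw [liftL_apply E hE M n (hE hmn hx), liftL_apply E hE M m hx]
  have h0 : ‖((M : 𝕜) + 1)⁻¹ • x‖ = ((M : ℝ) + 1)⁻¹ * ‖x‖ := by
    rw [norm_smul, norm_inv, norm_scal]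
  have hpos : 0 ≤ ((M : ℝ) + 1)⁻¹ * ‖x‖ := by positivity
  change ‖((x : X), stepSeq n (((M : 𝕜) + 1)⁻¹ • (x : X))) -
    ((x : X), stepSeq m (((M : 𝕜) + 1)⁻¹ • (x : X)))‖ ≤ _
  rw [Prod.mk_sub_mk, sub_self]
  refine norm_prod_le_iff.2 ⟨by simpa using hpos, ?_⟩
  rw [ContinuousMap.norm_le _ hpos]
  intro l
  induction l using OnePoint.rec with
  | infty => simpa using hpos
  | coe l =>
    rw [ContinuousMap.sub_apply, stepSeq_nat, stepSeq_nat]
    by_cases h1 : n ≤ l
    · rw [if_pos h1, if_pos (hmn.trans h1), sub_self, norm_zero]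
      exact hpos
    · rw [if_neg h1]
      by_cases h2 : m ≤ l
      · rw [if_pos h2, zero_sub, norm_neg, h0]
      · rw [if_neg h2, sub_zero, norm_zero]
        exact hpos

end

end Pool.Agent.Lib_helper7.OpIdeal
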