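import Mathlib
import Pool.Agent.Lib_helper7.OpIdeal.Lusky

/-!
# Truncation operators on the spaces of convergent sequences
-/

set_option autoImplicit false

namespace Pool.Agent.Lib_helper7.OpIdeal

open Filter Topology OnePoint

universe u

/-- the map `n ↦ min n N`, `∞ ↦ N` -/
def tau (N : ℕ) : C(OnePoint ℕ, OnePoint ℕ) :=
  OnePoint.continuousMapMkNat (fun n => ((min n N : ℕ) : OnePoint ℕ)) ((N : ℕ) : OnePoint ℕ) (by
    refine tendsto_const_nhds.congr' ?_
    filter_upwards [eventually_ge_atTop N] with m hm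
    rw [min_eq_right hm])

theorem tau_infty (N : ℕ) : tau N ∞ = ((N : ℕ) : OnePoint ℕ) := rfl

theorem tau_nat (N n : ℕ) : tau N ((n : ℕ) : OnePoint ℕ) = ((min n N : ℕ) : OnePoint ℕ) := rfl

section

variable {𝕜 : Type} [RCLike 𝕜] {X : Type u} [NormedAddCommGroup X] [NormedSpace 𝕜 X]

/-- truncation, as a linear map -/
noncomputable def trunc0 (E : ℕ → Submodule 𝕜 X) (hE : Monotone E) (M N : ℕ) :
    YY E M →ₗ[𝕜] YY E M where
  toFun w := ⟨(((M : 𝕜) + 1) • w.1.2 ((N : ℕ) : OnePoint ℕ), w.1.2.comp (tau N)), by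
    refine ⟨?_, fun n => ?_⟩
    · simp only [ContinuousMap.comp_apply, tau_infty]
    · simp only [ContinuousMap.comp_apply, tau_nat]
      exact hE (min_le_left n N) (w.2.2 (min n N))⟩
  map_add' := by
    intro w w'
    apply Subtype.ext
    refine Prod.ext ?_ ?_
    · simp
    · ext m
      simp
  map_smul' := by
    intro c w
    apply Subtype.ext
    refine Prod.ext ?_ ?_
    · simp [smul_comm c]
    · ext m
      simp

theorem norm_trunc0_le (E : ℕ → Submodule 𝕜 X) (hE : Monotone E) (M N : ℕ) (w : YY E M) :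
    ‖trunc0 E hE M N w‖ ≤ ((M : ℝ) + 1) * ‖w‖ := by
  have h1 : ‖w.1.2‖ ≤ ‖w‖ := norm_snd_le (w : X × C(OnePoint ℕ, X))
  have hM : (0 : ℝ) ≤ M := Nat.cast_nonneg M
  change ‖(((M : 𝕜) + 1) • w.1.2 ((N : ℕ) : OnePoint ℕ), w.1.2.comp (tau N))‖ ≤ _
  refine norm_prod_le_iff.2 ⟨?_, ?_⟩
  · rw [norm_smul, norm_scal]
    exact mul_le_mul_of_nonneg_left ((w.1.2.norm_coe_le_norm _).trans h1) (by positivity)
  · rw [ContinuousMap.norm_le _ (by positivity)]
    intro m
    calc ‖(w.1.2.comp (tau N)) m‖ ≤ ‖w‖ := (w.1.2.norm_coe_le_norm _).trans h1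
      _ ≤ ((M : ℝ) + 1) * ‖w‖ := by nlinarith [norm_nonneg w]

/-- truncation -/
noncomputable def trunc (E : ℕ → Submodule 𝕜 X) (hE : Monotone E) (M N : ℕ) :
    YY E M →L[𝕜] YY E M :=
  (trunc0 E hE M N).mkContinuous ((M : ℝ) + 1) (norm_trunc0_le E hE M N)

theorem norm_trunc_le (E : ℕ → Submodule 𝕜 X) (hE : Monotone E) (M N : ℕ) (w : YY E M) :
    ‖trunc E hE M N w‖ ≤ ((M : ℝ) + 1) * ‖w‖ := norm_trunc0_le E hE M N w

theorem finiteRank_trunc (E : ℕ → Submodule 𝕜 X) (hE : Monotone E)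
    [∀ n, FiniteDimensional 𝕜 (E n)] (M N : ℕ) : FiniteRank (trunc E hE M N) := by
  unfold FiniteRank
  set R := LinearMap.range (trunc E hE M N : YY E M →ₗ[𝕜] YY E M) with hR
  let T : R →ₗ[𝕜] (∀ m : Fin (N + 1), E m) := LinearMap.pi fun m =>
    { toFun := fun v => ⟨v.1.1.2 ((m : ℕ) : OnePoint ℕ), v.1.2.2 m⟩
      map_add' := fun v v' => rfl
      map_smul' := fun c v => rfl }
  refine FiniteDimensional.of_injective T ?_
  rw [← LinearMap.ker_eq_bot, LinearMap.ker_eq_bot']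
  rintro ⟨v, ⟨w, rfl⟩⟩ hv
  have h1 : ∀ m : ℕ, m ≤ N → w.1.2 ((m : ℕ) : OnePoint ℕ) = 0 := by
    intro m hm
    have h2 := congrFun hv ⟨m, Nat.lt_succ_of_le hm⟩
    have h3 := congrArg Subtype.val h2
    have h4 : (w.1.2.comp (tau N)) ((m : ℕ) : OnePoint ℕ) = 0 := h3
    rwa [ContinuousMap.comp_apply, tau_nat, min_eq_left hm] at h4
  apply Subtype.ext
  apply Subtype.ext
  refine Prod.ext ?_ ?_
  · change ((M : 𝕜) + 1) • w.1.2 ((N : ℕ) : OnePoint ℕ) = 0
    rw [h1 N le_rfl, smul_zero]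
  · change w.1.2.comp (tau N) = 0
    ext m
    induction m using OnePoint.rec with
    | infty =>
      rw [ContinuousMap.comp_apply, tau_infty, h1 N le_rfl]; rfl
    | coe m =>
      rw [ContinuousMap.comp_apply, tau_nat, h1 _ (min_le_right m N)]; rfl

theorem trunc_tendsto (E : ℕ → Submodule 𝕜 X) (hE : Monotone E) (M : ℕ) (w : YY E M) :
    Tendsto (fun N => trunc E hE M N w) atTop (𝓝 w) := by
  have hw : w.1.1 = ((M : 𝕜) + 1) • w.1.2 ∞ := w.2.1
  have hlim : Tendsto (fun n : ℕ => w.1.2 ((n : ℕ) : OnePoint ℕ)) atTop (𝓝 (w.1.2 ∞)) :=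
    (OnePoint.continuous_iff_from_nat _).1 w.1.2.continuous
  rw [Metric.tendsto_atTop] at hlim ⊢
  intro ε hε
  have hMpos : (0 : ℝ) < (M : ℝ) + 1 := by positivity
  obtain ⟨N, hN⟩ := hlim (ε / (4 * ((M : ℝ) + 1))) (by positivity)
  refine ⟨N, fun n hn => ?_⟩
  have h1 : ∀ m ≥ N, ‖w.1.2 ((m : ℕ) : OnePoint ℕ) - w.1.2 ∞‖ ≤ ε / (4 * ((M : ℝ) + 1)) := by
    intro m hm
    have := hN m hm
    rw [dist_eq_norm] at this
    exact this.le
  have h2 : ε / (4 * ((M : ℝ) + 1)) ≤ ε / 4 := by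
    apply div_le_div_of_nonneg_left hε.le (by norm_num)
    linarith [Nat.cast_nonneg (α := ℝ) M]
  rw [dist_eq_norm]
  have h3 : ‖trunc E hE M n w - w‖ ≤ ε / 2 := by
    change ‖((((M : 𝕜) + 1) • w.1.2 ((n : ℕ) : OnePoint ℕ), w.1.2.comp (tau n)) :
      X × C(OnePoint ℕ, X)) - w.1‖ ≤ _
    refine norm_prod_le_iff.2 ⟨?_, ?_⟩
    · rw [Prod.fst_sub, hw, ← smul_sub, norm_smul, norm_scal]
      calc ((M : ℝ) + 1) * ‖w.1.2 ((n : ℕ) : OnePoint ℕ) - w.1.2 ∞‖
          ≤ ((M : ℝ) + 1) * (ε / (4 * ((M : ℝ) + 1))) :=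
            mul_le_mul_of_nonneg_left (h1 n hn) hMpos.le
        _ = ε / 4 := by field_simp
        _ ≤ ε / 2 := by linarith
    · rw [Prod.snd_sub, ContinuousMap.norm_le _ (by positivity)]
      intro m
      rw [ContinuousMap.sub_apply, ContinuousMap.comp_apply]
      induction m using OnePoint.rec with
      | infty =>
        rw [tau_infty]
        exact (h1 n hn).trans (h2.trans (by linarith))
      | coe m =>
        rw [tau_nat]
        by_cases hm : m ≤ n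
        · rw [min_eq_left hm, sub_self, norm_zero]; positivity
        · rw [min_eq_right (not_le.1 hm).le]
          have e1 : w.1.2 ((n : ℕ) : OnePoint ℕ) - w.1.2 ((m : ℕ) : OnePoint ℕ) =
              (w.1.2 ((n : ℕ) : OnePoint ℕ) - w.1.2 ∞) - (w.1.2 ((m : ℕ) : OnePoint ℕ) - w.1.2 ∞) :=
            by abel
          rw [e1]
          have e2 := h1 n hn
          have e3 := h1 m (hn.le.trans (not_le.1 hm).le)
          calc _ ≤ _ := norm_sub_le _ _
            _ ≤ ε / 4 + ε / 4 := add_le_add (e2.trans h2) (e3.trans h2)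
            _ = ε / 2 := by ring
  linarith

end

end Pool.Agent.Lib_helper7.OpIdeal
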