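import Mathlib
import Pool.Agent.Lib_helper7.OpIdeal.Trunc

/-!
# The approximation property of an `ℓ_1`-sum of spaces of convergent sequences
-/

set_option autoImplicit false

namespace Pool.Agent.Lib_helper7.OpIdeal

open Filter Topology
open scoped ENNReal

universe u

/-- unbundled form of the approximation property -/
def HasAP' (𝕜 : Type) [RCLike 𝕜] (X : Type u) [NormedAddCommGroup X] [NormedSpace 𝕜 X] : Prop :=
  ∀ K : Set X, IsCompact K → ∀ ε : ℝ, 0 < ε →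
    ∃ S : X →L[𝕜] X, FiniteRank S ∧ ∀ x ∈ K, ‖S x - x‖ ≤ ε

theorem unif_on_compact {𝕜 : Type} [RCLike 𝕜] {V V' : Type u} [NormedAddCommGroup V]
    [NormedSpace 𝕜 V] [NormedAddCommGroup V'] [NormedSpace 𝕜 V'] (A : ℕ → (V →L[𝕜] V'))
    (B : V →L[𝕜] V') (C : ℝ) (hC : ∀ n x, ‖A n x‖ ≤ C * ‖x‖)
    (hA : ∀ x, Tendsto (fun n => A n x) atTop (𝓝 (B x))) (K : Set V) (hK : IsCompact K)
    (ε : ℝ) (hε : 0 < ε) : ∀ᶠ n in atTop, ∀ x ∈ K, ‖A n x - B x‖ ≤ ε := by
  set D : ℝ := |C| + ‖B‖ + 1 with hD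
  have hDpos : 0 < D := by positivity
  have hr : 0 < ε / (3 * D) := by positivity
  obtain ⟨t, ht, hcov⟩ := Metric.totallyBounded_iff.1 hK.totallyBounded (ε / (3 * D)) hr
  have h1 : ∀ᶠ n in atTop, ∀ y ∈ t, ‖A n y - B y‖ < ε / 3 := by
    rw [Filter.eventually_all_finite ht]
    intro y _
    have := (tendsto_iff_norm_sub_tendsto_zero.1 (hA y))
    exact this.eventually (gt_mem_nhds (by positivity))
  filter_upwards [h1] with n hn x hx
  obtain ⟨y, hy, hxy⟩ := Set.mem_iUnion₂.1 (hcov hx)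
  rw [Metric.mem_ball, dist_eq_norm] at hxy
  have e1 : A n x - B x = A n (x - y) + (A n y - B y) - B (x - y) := by
    rw [map_sub, map_sub]; abel
  have h2 : ‖A n (x - y)‖ ≤ |C| * (ε / (3 * D)) :=
    (hC n _).trans (mul_le_mul (le_abs_self C) hxy.le (norm_nonneg _) (abs_nonneg _))
  have h3 : ‖B (x - y)‖ ≤ ‖B‖ * (ε / (3 * D)) :=
    (B.le_opNorm _).trans (mul_le_mul_of_nonneg_left hxy.le (norm_nonneg _))
  have h4 : |C| * (ε / (3 * D)) ≤ ε / 3 := by
    rw [mul_div_assoc', div_le_div_iff₀ (by positivity) (by norm_num)]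
    have : |C| ≤ D := by rw [hD]; linarith [norm_nonneg B, abs_nonneg C]
    nlinarith
  have h5 : ‖B‖ * (ε / (3 * D)) ≤ ε / 3 := by
    rw [mul_div_assoc', div_le_div_iff₀ (by positivity) (by norm_num)]
    have : ‖B‖ ≤ D := by rw [hD]; linarith [norm_nonneg B, abs_nonneg C]
    nlinarith
  rw [e1]
  calc _ ≤ ‖A n (x - y) + (A n y - B y)‖ + ‖B (x - y)‖ := norm_sub_le _ _
    _ ≤ ‖A n (x - y)‖ + ‖A n y - B y‖ + ‖B (x - y)‖ := by gcongr; exact norm_add_le _ _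
    _ ≤ ε / 3 + ε / 3 + ε / 3 := by
        gcongr
        · exact h2.trans h4
        · exact (hn y hy).le
        · exact h3.trans h5
    _ = ε := by ring

/-- a two-step criterion for the approximation property -/
theorem hasAP_of_two_step {𝕜 : Type} [RCLike 𝕜] {V : Type u} [NormedAddCommGroup V]
    [NormedSpace 𝕜 V] (P : ℕ → (V →L[𝕜] V)) (C : ℝ) (hC : ∀ n x, ‖P n x‖ ≤ C * ‖x‖)
    (hP : ∀ x, Tendsto (fun n => P n x) atTop (𝓝 x))
    (A : ℕ → ℕ → (V →L[𝕜] V)) (C' : ℕ → ℝ) (hC' : ∀ m n x, ‖A m n x‖ ≤ C' m * ‖x‖)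
    (hA : ∀ m x, Tendsto (fun n => A m n x) atTop (𝓝 (P m x)))
    (hfr : ∀ m n, FiniteRank (A m n)) : HasAP' 𝕜 V := by
  intro K hK ε hε
  obtain ⟨m, hm⟩ := (unif_on_compact P (ContinuousLinearMap.id 𝕜 V) C hC hP K hK (ε / 2)
    (by positivity)).exists
  obtain ⟨n, hn⟩ := (unif_on_compact (A m) (P m) (C' m) (hC' m) (hA m) K hK (ε / 2)
    (by positivity)).exists
  refine ⟨A m n, hfr m n, fun x hx => ?_⟩
  have e1 : A m n x - x = (A m n x - P m x) + (P m x - x) := by abel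
  rw [e1]
  calc _ ≤ _ := norm_add_le _ _
    _ ≤ ε / 2 + ε / 2 := add_le_add (hn x hx) (hm x hx)
    _ = ε := add_halves ε

section

variable {𝕜 : Type} [RCLike 𝕜] (V : ℕ → Type u) [∀ M, NormedAddCommGroup (V M)]
  [∀ M, NormedSpace 𝕜 (V M)]

variable (𝕜) in
/-- inclusion of a summand -/
noncomputable def incl (M : ℕ) : V M →L[𝕜] lp V 1 :=
  lp.singleContinuousLinearMap 𝕜 V 1 M

variable (𝕜) in
/-- projection onto a summand -/
noncomputable def proj (M : ℕ) : lp V 1 →L[𝕜] V M :=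
  lp.evalCLM 𝕜 V 1 M

theorem incl_apply (M : ℕ) (w : V M) : incl 𝕜 V M w = lp.single 1 M w := rfl

theorem proj_apply (M : ℕ) (w : lp V 1) : proj 𝕜 V M w = w M := rfl

theorem norm_incl (M : ℕ) (w : V M) : ‖incl 𝕜 V M w‖ = ‖w‖ :=
  lp.norm_single (p := 1) (by norm_num) M w

theorem norm_proj_le (M : ℕ) (w : lp V 1) : ‖proj 𝕜 V M w‖ ≤ ‖w‖ :=
  lp.norm_apply_le_norm one_ne_zero w M

theorem proj_incl (M : ℕ) (w : V M) : proj 𝕜 V M (incl 𝕜 V M w) = w :=
  lp.single_apply_self (E := V) 1 M w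

theorem hasAP_sum (t : ∀ M, ℕ → (V M →L[𝕜] V M)) (c : ℕ → ℝ) (hc : ∀ M, 0 ≤ c M)
    (ht : ∀ M n w, ‖t M n w‖ ≤ c M * ‖w‖)
    (hlim : ∀ M w, Tendsto (fun n => t M n w) atTop (𝓝 w))
    (hfr : ∀ M n, FiniteRank (t M n)) : HasAP' 𝕜 (lp V 1) := by
  have happ : ∀ (m : ℕ) (w : lp V 1), (∑ M ∈ Finset.range m, incl 𝕜 V M ∘L proj 𝕜 V M) w =
        ∑ M ∈ Finset.range m, lp.single 1 M (w M) := by
    intro m w
    rw [sum_apply]
    rfl
  refine hasAP_of_two_step (fun m => ∑ M ∈ Finset.range m, incl 𝕜 V M ∘L proj 𝕜 V M) 1 ?_ ?_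
    (fun m n => ∑ M ∈ Finset.range m, incl 𝕜 V M ∘L t M n ∘L proj 𝕜 V M)
    (fun m => ∑ M ∈ Finset.range m, c M) ?_ ?_ ?_
  · intro m w
    rw [one_mul, happ]
    have h2 := lp.norm_sum_single (E := V) (p := 1) (by norm_num) (fun i => w i)
      (Finset.range m)
    have h3 := lp.norm_sub_norm_compl_sub_single (E := V) (p := 1) (by norm_num) w
      (Finset.range m)
    simp only [ENNReal.toReal_one, Real.rpow_one] at h2 h3
    rw [h2]
    linarith [norm_nonneg (w - ∑ i ∈ Finset.range m, lp.single 1 i (w i))]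
  · intro w
    simp only [happ]
    exact (lp.hasSum_single (E := V) ENNReal.one_ne_top w).tendsto_sum_nat
  · intro m n w
    rw [sum_apply, Finset.sum_mul]
    refine (norm_sum_le _ _).trans (Finset.sum_le_sum fun M _ => ?_)
    change ‖incl 𝕜 V M (t M n (proj 𝕜 V M w))‖ ≤ _
    rw [norm_incl]
    refine (ht M n _).trans ?_
    exact mul_le_mul_of_nonneg_left (norm_proj_le V M w) (hc M)
  · intro m w
    simp only [sum_apply]
    refine tendsto_finsetSum _ fun M _ => ?_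
    exact ((incl 𝕜 V M).continuous.tendsto _).comp (hlim M (proj 𝕜 V M w))
  · intro m n
    exact finiteRank_sum _ fun M _ =>
      finiteRank_comp_left _ (finiteRank_comp_right _ (hfr M n))

end

end Pool.Agent.Lib_helper7.OpIdeal
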