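import Mathlib
import Pool.Agent.Lib_helper7.OpIdeal.Key
import Pool.Agent.Lib_helper7.OpIdeal.SumAP
import Pool.Agent.Lib_helper7.Davie.Core2

/-!
# A Banach space with the approximation property without the `λ`-BAP for the approximable operators
-/

set_option autoImplicit false

namespace Pool.Agent.Lib_helper7.OpIdeal

open Filter Topology OpIdealStmt
open scoped ENNReal

universe u

section

variable {𝕜 : Type} [RCLike 𝕜]

/-- a sequence of functionals tending to zero gives an approximable operator -/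
theorem exists_diag {X : Type u} [NormedAddCommGroup X] [NormedSpace 𝕜 X] {I : Type}
    (y' : I → (X →L[𝕜] 𝕜)) (hy' : Tendsto y' cofinite (𝓝 0)) :
    ∃ (Y : Type u) (_ : NormedAddCommGroup Y) (_ : NormedSpace 𝕜 Y) (_ : CompleteSpace Y)
      (D : X →L[𝕜] Y), D ∈ (finiteRankSub 𝕜 X Y).topologicalClosure ∧
        ∀ i x, ‖y' i x‖ ≤ ‖D x‖ := by
  classical
  obtain ⟨C, hC1, hC⟩ := Davie.bdd_of_tendsto y' hy'
  have hC0 : 0 ≤ C := zero_le_one.trans hC1
  let D0 : X →ₗ[𝕜] lp (fun _ : ULift.{u} I => 𝕜) ∞ :=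
    { toFun := fun x => ⟨fun i => y' i.down x, by
        refine memℓp_infty ⟨C * ‖x‖, ?_⟩
        rintro _ ⟨i, rfl⟩
        exact ((y' i.down).le_opNorm x).trans (mul_le_mul_of_nonneg_right (hC _) (norm_nonneg _))⟩
      map_add' := by
        intro x x'
        apply Subtype.ext
        funext i
        exact map_add (y' i.down) x x'
      map_smul' := by
        intro c x
        apply Subtype.ext
        funext i
        exact map_smul (y' i.down) c x }
  have hD0 : ∀ x i, (D0 x : ULift.{u} I → 𝕜) i = y' i.down x := fun _ _ => rfl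
  have hbd : ∀ x, ‖D0 x‖ ≤ C * ‖x‖ := by
    intro x
    refine lp.norm_le_of_forall_le (by positivity) fun i => ?_
    exact ((y' i.down).le_opNorm x).trans (mul_le_mul_of_nonneg_right (hC _) (norm_nonneg _))
  let D : X →L[𝕜] lp (fun _ : ULift.{u} I => 𝕜) ∞ := D0.mkContinuous C hbd
  have hD : ∀ x i, (D x : ULift.{u} I → 𝕜) i = y' i.down x := fun _ _ => rfl
  refine ⟨lp (fun _ : ULift.{u} I => 𝕜) ∞, inferInstance, inferInstance, inferInstance, D, ?_, ?_⟩
  · change D ∈ closure ((finiteRankSub 𝕜 X (lp (fun _ : ULift.{u} I => 𝕜) ∞) :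
      Submodule 𝕜 (X →L[𝕜] lp (fun _ : ULift.{u} I => 𝕜) ∞)) :
      Set (X →L[𝕜] lp (fun _ : ULift.{u} I => 𝕜) ∞))
    rw [Metric.mem_closure_iff]
    intro ε hε
    have hfin : {i | ¬ ‖y' i‖ < ε / 2}.Finite := by
      have := hy'.norm
      rw [norm_zero] at this
      exact Filter.eventually_cofinite.1 (this.eventually (gt_mem_nhds (by positivity)))
    let T : X →L[𝕜] lp (fun _ : ULift.{u} I => 𝕜) ∞ := ∑ i ∈ hfin.toFinset,
      (y' i).smulRight (lp.single (E := fun _ : ULift.{u} I => 𝕜) ∞ ⟨i⟩ (1 : 𝕜))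
    refine ⟨T, finiteRank_sum _ fun i _ => finiteRank_smulRight _ _, ?_⟩
    have hT : ∀ x i, (T x : ULift.{u} I → 𝕜) i = if i.down ∈ hfin.toFinset then y' i.down x else 0 := by
      intro x i
      have h1 : (T x : ULift.{u} I → 𝕜) i = ∑ j ∈ hfin.toFinset,
          y' j x * (if i = ⟨j⟩ then (1 : 𝕜) else 0) := by
        have h2 : T x = ∑ j ∈ hfin.toFinset, y' j x •
            (lp.single (E := fun _ : ULift.{u} I => 𝕜) ∞ ⟨j⟩ (1 : 𝕜)) := by
          simp only [T, sum_apply, ContinuousLinearMap.smulRight_apply]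
        rw [h2, lp.coeFn_sum, Finset.sum_apply]
        refine Finset.sum_congr rfl fun j _ => ?_
        rw [lp.coeFn_smul, Pi.smul_apply, smul_eq_mul, lp.single_apply, Pi.single_apply]
      rw [h1]
      by_cases hi : i.down ∈ hfin.toFinset
      · rw [if_pos hi, Finset.sum_eq_single i.down]
        · rw [if_pos rfl, mul_one]
        · intro j _ hj
          rw [if_neg (fun h => hj (by rw [h])), mul_zero]
        · intro h; exact absurd hi h
      · rw [if_neg hi]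
        refine Finset.sum_eq_zero fun j hj => ?_
        rw [if_neg (fun h => hi (by rw [h]; exact hj)), mul_zero]
    rw [dist_eq_norm]
    refine lt_of_le_of_lt ?_ (half_lt_self hε)
    refine ContinuousLinearMap.opNorm_le_bound _ (by positivity) fun x => ?_
    refine lp.norm_le_of_forall_le (by positivity) fun i => ?_
    have h3 : ((D - T) x : ULift.{u} I → 𝕜) i = y' i.down x -
        if i.down ∈ hfin.toFinset then y' i.down x else 0 := by
      rw [← hT, ← hD]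
      rfl
    rw [h3]
    by_cases hi : i.down ∈ hfin.toFinset
    · rw [if_pos hi, sub_self, norm_zero]; positivity
    · rw [if_neg hi, sub_zero]
      have h4 : ‖y' i.down‖ < ε / 2 := by
        by_contra hcon
        exact hi (hfin.mem_toFinset.2 hcon)
      exact ((y' i.down).le_opNorm x).trans (mul_le_mul_of_nonneg_right h4.le (norm_nonneg _))
  · intro i x
    exact lp.norm_apply_le_norm ENNReal.top_ne_zero (D x) ⟨i⟩

theorem not_hasBAP_of_structure {X W : Type u} [NormedAddCommGroup X] [NormedSpace 𝕜 X]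
    [CompleteSpace X] [NormedAddCommGroup W] [NormedSpace 𝕜 W] [CompleteSpace W]
    (E : ℕ → Submodule 𝕜 X) (hE : Monotone E) {I : Type} (y : I → X)
    (y' : I → (X →L[𝕜] 𝕜)) (b : I → ℝ) (N : I → ℕ) (hN : ∀ n, {i | N i ≤ n}.Finite)
    (hyE : ∀ i, y i ∈ E (N i)) (hy : Tendsto y cofinite (𝓝 0)) (hy' : Tendsto y' cofinite (𝓝 0))
    (hb : ∀ i, 0 ≤ b i) (hbs : Summable b)
    (h1 : HasSum (fun i => ((b i : ℝ) : 𝕜) * y' i (y i)) 1)
    (h0 : ∀ x : X, HasSum (fun i => (((b i : ℝ) : 𝕜) * y' i x) • y i) 0)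
    (q : ℕ → (W →L[𝕜] X)) (hq : ∀ M w, ‖q M w‖ ≤ ‖w‖) (L : ℕ → ℕ → (X →ₗ[𝕜] W))
    (hL1 : ∀ M n, ∀ x ∈ E n, q M (L M n x) = x) (hL2 : ∀ M n, ∀ x ∈ E n, ‖L M n x‖ ≤ ‖x‖)
    (hL3 : ∀ M m n, m ≤ n → ∀ x ∈ E m, ‖L M n x - L M m x‖ ≤ ((M : ℝ) + 1)⁻¹ * ‖x‖)
    (lam : ℝ) : ¬ HasBAPFor (approximable.{u} 𝕜) ⟨W⟩ lam := by
  intro hBAP
  obtain ⟨Y, _, _, _, D, hD, hDy⟩ := exists_diag.{u} y' hy'
  obtain ⟨C, hC1, hC⟩ := Davie.bdd_of_tendsto y' hy'
  obtain ⟨C', hC1', hC'⟩ := Davie.bdd_of_tendsto y hy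
  have hC0 : 0 ≤ C := zero_le_one.trans hC1
  have hC0' : 0 ≤ C' := zero_le_one.trans hC1'
  set B : ℝ := ∑' i, b i with hB
  have hB0 : 0 ≤ B := tsum_nonneg hb
  set Λ : ℝ := |lam| * ‖D‖ + 1 with hΛdef
  have hΛ0 : 0 ≤ Λ := by positivity
  obtain ⟨M, hM⟩ := exists_nat_gt (4 * (B * (Λ * C')))
  have hMpos : (0 : ℝ) < (M : ℝ) + 1 := by positivity
  set δ : ℝ := (4 * (B * C + 1))⁻¹ with hδdef
  have hδ0 : 0 < δ := by positivity
  -- the operator
  set T : W →L[𝕜] Y := D ∘L q M with hT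
  have hTmem : T ∈ (approximable.{u} 𝕜).component ⟨W⟩ ⟨Y⟩ := by
    have := mem_closure_comp (q M) D (ContinuousLinearMap.id 𝕜 Y) hD
    exact this
  obtain ⟨ι, hne, _, _, S0, hSfr0, hSK0, hSlim0⟩ := hBAP ⟨Y⟩ T hTmem
  let S : ι → (W →L[𝕜] W) := S0
  have hSfr : ∀ α, FiniteRank (S α) := fun α =>
    (opFiniteRank_iff (X := ⟨W⟩) (Y := ⟨W⟩) (S α)).1 (hSfr0 α)
  have hSK : ∀ K : Set W, IsCompact K →
    TendstoUniformlyOn (fun α x => S α x) (fun x => x) atTop K := hSK0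
  have hSlim : limsup (fun α => ((‖T ∘L S α‖ : ℝ) : EReal)) atTop ≤
    ((lam * ‖T‖ : ℝ) : EReal) := hSlim0
  -- the compact set
  set w : I → W := fun i => L M (N i) (y i) with hw
  have hwt : Tendsto w cofinite (𝓝 0) := by
    refine squeeze_zero_norm (fun i => hL2 M (N i) (y i) (hyE i)) ?_
    have := hy.norm
    rwa [norm_zero] at this
  have hK : IsCompact (insert 0 (Set.range w)) := hwt.isCompact_insert_range_of_cofinite
  have hev1 := (Metric.tendstoUniformlyOn_iff.1 (hSK _ hK)) δ hδ0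
  have hTn : ‖T‖ ≤ ‖D‖ := by
    refine ContinuousLinearMap.opNorm_le_bound _ (norm_nonneg _) fun v => ?_
    exact (D.le_opNorm _).trans (mul_le_mul_of_nonneg_left (hq M v) (norm_nonneg _))
  have hlt : ((lam * ‖T‖ : ℝ) : EReal) < ((lam * ‖T‖ + 1 : ℝ) : EReal) := by
    exact_mod_cast lt_add_one _
  have hev2 : ∀ᶠ α in (atTop : Filter ι), ((‖T ∘L S α‖ : ℝ) : EReal) <
      ((lam * ‖T‖ + 1 : ℝ) : EReal) :=
    eventually_lt_of_limsup_lt (lt_of_le_of_lt hSlim hlt)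
  obtain ⟨α, hα1, hα2⟩ := (hev1.and hev2).exists
  have hα2' : ‖T ∘L S α‖ < lam * ‖T‖ + 1 := by exact_mod_cast hα2
  have hα3 : ‖T ∘L S α‖ ≤ Λ := by
    refine hα2'.le.trans ?_
    rw [hΛdef]
    have h2 : lam * ‖T‖ ≤ |lam| * ‖D‖ :=
      mul_le_mul (le_abs_self _) hTn (norm_nonneg _) (abs_nonneg _)
    linarith
  have hkey := key_estimate E hE y y' b N hN hyE C C' hC hC' hb hbs h1 h0 (q M) (hq M) (L M)
    (hL1 M) (hL2 M) ((M : ℝ) + 1)⁻¹ (hL3 M) (S α) (hSfr α) Λ hΛ0 (by positivity) (by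
      intro i v
      calc ‖y' i (q M (S α v))‖ ≤ ‖D (q M (S α v))‖ := hDy i _
        _ = ‖(T ∘L S α) v‖ := rfl
        _ ≤ ‖T ∘L S α‖ * ‖v‖ := (T ∘L S α).le_opNorm v
        _ ≤ Λ * ‖v‖ := mul_le_mul_of_nonneg_right hα3 (norm_nonneg _)) δ (by
      intro i
      have := hα1 (w i) (Set.mem_insert_of_mem _ ⟨i, rfl⟩)
      rw [dist_eq_norm, norm_sub_rev] at this
      exact this.le)
  have e1 : B * (Λ * (((M : ℝ) + 1)⁻¹ * C')) ≤ 1 / 4 := by
    have : B * (Λ * (((M : ℝ) + 1)⁻¹ * C')) = (B * (Λ * C')) / ((M : ℝ) + 1) := by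
      rw [div_eq_mul_inv]; ring
    rw [this, div_le_div_iff₀ hMpos (by norm_num)]
    linarith
  have e2 : B * (C * δ) ≤ 1 / 4 := by
    have hBC : 0 ≤ B * C := mul_nonneg hB0 hC0
    have : B * (C * δ) = (B * C) / (4 * (B * C + 1)) := by
      rw [hδdef, div_eq_mul_inv]; ring
    rw [this, div_le_div_iff₀ (by positivity) (by norm_num)]
    linarith
  rw [mul_add] at hkey
  linarith

end

/-- The main construction. -/
theorem main (𝕜 : Type) [RCLike 𝕜] : ∃ X : Ban.{u} 𝕜, HasAP X ∧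
      ∀ lam : ℝ, ¬ HasBAPFor (approximable.{u} 𝕜) X lam := by
  obtain ⟨X, _, _, _, E, y, y', b, N, hE, hEf, hN, hyE, hy, hy', hb, hbs, h1, h0⟩ :=
    Davie.core2.{u} 𝕜
  refine ⟨⟨lp (fun M : ℕ => YY E M) 1⟩, ?_, ?_⟩
  · have h := hasAP_sum (fun M : ℕ => YY E M) (fun M N => trunc E hE M N) (fun M => (M : ℝ) + 1)
      (fun M => by positivity) (norm_trunc_le E hE) (trunc_tendsto E hE) (finiteRank_trunc E hE)
    intro K hK ε hε
    obtain ⟨S, hS, hSx⟩ := h K hK ε hε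
    exact ⟨S, (opFiniteRank_iff (X := ⟨lp (fun M : ℕ => YY E M) 1⟩)
      (Y := ⟨lp (fun M : ℕ => YY E M) 1⟩) S).2 hS, hSx⟩
  · refine not_hasBAP_of_structure E hE y y' b N hN hyE hy hy' hb hbs h1 h0
      (fun M => qq E M ∘L proj 𝕜 (fun M : ℕ => YY E M) M) ?_
      (fun M n => (incl 𝕜 (fun M : ℕ => YY E M) M : _ →ₗ[𝕜] _) ∘ₗ liftL E hE M n) ?_ ?_ ?_
    · intro M w
      exact (norm_qq_le E M _).trans (norm_proj_le (fun M : ℕ => YY E M) M w)
    · intro M n x hx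
      change qq E M (proj 𝕜 (fun M : ℕ => YY E M) M
        (incl 𝕜 (fun M : ℕ => YY E M) M (liftL E hE M n x))) = x
      rw [proj_incl, qq_liftL E hE M n x hx]
    · intro M n x hx
      change ‖incl 𝕜 (fun M : ℕ => YY E M) M (liftL E hE M n x)‖ ≤ ‖x‖
      rw [norm_incl]
      exact norm_liftL_le E hE M n x hx
    · intro M m n hmn x hx
      change ‖incl 𝕜 (fun M : ℕ => YY E M) M (liftL E hE M n x) -
        incl 𝕜 (fun M : ℕ => YY E M) M (liftL E hE M m x)‖ ≤ _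
      rw [← map_sub, norm_incl]
      exact norm_liftL_sub_le E hE M m n hmn x hx

end Pool.Agent.Lib_helper7.OpIdeal
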